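import Mathlib

set_option autoImplicit false
set_option linter.unusedSectionVars false

/-! # The hull property of the bounded point evaluations of a cyclic operator -/

namespace Pool.Agent.Q202.EC

open Set Filter Topology Complex Polynomial

variable {E : Type*} [NormedAddCommGroup E] [NormedSpace ℂ E]

/-- the lower bound `c` at `l` -/
def Low (S : E →L[ℂ] E) (x : E) (c : ℝ) (l : ℂ) : Prop :=
  ∀ (a : ℂ) (y : E), c * (‖a‖ + ‖y‖) ≤ ‖a • x + (S y - l • y)‖

/-- the bounded point evaluations -/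
def GG (S : E →L[ℂ] E) (x : E) : Set ℂ := {l | ∃ c : ℝ, 0 < c ∧ Low S x c l}

/-- the points where `S - l` is not bounded below -/
def KK (S : E →L[ℂ] E) : Set ℂ := {l | ¬ ∃ c : ℝ, 0 < c ∧ ∀ y : E, c * ‖y‖ ≤ ‖S y - l • y‖}

theorem Low.near {S : E →L[ℂ] E} {x : E} {c : ℝ} {l m : ℂ} (h : Low S x c l)
    (hm : ‖m - l‖ ≤ c / 2) : Low S x (c / 2) m := by
  intro a y
  have h1 := h a y
  have h2 : a • x + (S y - m • y) = (a • x + (S y - l • y)) - (m - l) • y := by
    rw [sub_smul]; abel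
  rw [h2]
  have h3 : ‖(a • x + (S y - l • y))‖ - ‖(m - l) • y‖ ≤
      ‖(a • x + (S y - l • y)) - (m - l) • y‖ := norm_sub_norm_le _ _
  rw [norm_smul] at h3
  have h4 : ‖m - l‖ * ‖y‖ ≤ c / 2 * ‖y‖ := mul_le_mul_of_nonneg_right hm (norm_nonneg _)
  have h5 : c / 2 * ‖a‖ ≤ c * ‖a‖ := by
    have hc : 0 ≤ c := by linarith [norm_nonneg (m - l)]
    nlinarith [norm_nonneg a]
  nlinarith

theorem isOpen_GG (S : E →L[ℂ] E) (x : E) : IsOpen (GG S x) := by
  rw [Metric.isOpen_iff]
  rintro l ⟨c, hc, hl⟩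
  refine ⟨c / 2, by positivity, fun m hm => ⟨c / 2, by positivity, hl.near ?_⟩⟩
  rw [Metric.mem_ball, dist_eq_norm] at hm
  exact hm.le

theorem isOpen_compl_KK (S : E →L[ℂ] E) : IsOpen (KK S)ᶜ := by
  rw [Metric.isOpen_iff]
  intro l hl
  simp only [KK, mem_compl_iff, mem_setOf_eq, not_not] at hl
  obtain ⟨c, hc, hl⟩ := hl
  refine ⟨c / 2, by positivity, fun m hm => ?_⟩
  simp only [KK, mem_compl_iff, mem_setOf_eq, not_not]
  refine ⟨c / 2, by positivity, fun y => ?_⟩
  rw [Metric.mem_ball, dist_eq_norm] at hm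
  have h1 := hl y
  have h2 : S y - m • y = (S y - l • y) - (m - l) • y := by
    rw [sub_smul]; abel
  rw [h2]
  have h3 : ‖S y - l • y‖ - ‖(m - l) • y‖ ≤ ‖(S y - l • y) - (m - l) • y‖ := norm_sub_norm_le _ _
  rw [norm_smul] at h3
  have h4 : ‖m - l‖ * ‖y‖ ≤ c / 2 * ‖y‖ := mul_le_mul_of_nonneg_right hm.le (norm_nonneg _)
  linarith

theorem GG_subset {S : E →L[ℂ] E} {x : E} : GG S x ⊆ (KK S)ᶜ := by
  rintro l ⟨c, hc, hl⟩
  simp only [KK, mem_compl_iff, mem_setOf_eq, not_not]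
  refine ⟨c, hc, fun y => ?_⟩
  have := hl 0 y
  simpa using this

/-- the orbit map -/
noncomputable def ev (S : E →L[ℂ] E) (x : E) (p : ℂ[X]) : E := (aeval S p) x

theorem ev_add (S : E →L[ℂ] E) (x : E) (p q : ℂ[X]) : ev S x (p + q) = ev S x p + ev S x q := by
  simp [ev]

theorem ev_C (S : E →L[ℂ] E) (x : E) (a : ℂ) : ev S x (C a) = a • x := by
  simp [ev, Algebra.algebraMap_eq_smul_one]

theorem ev_mul_X (S : E →L[ℂ] E) (x : E) (p : ℂ[X]) : ev S x (p * X) = S (ev S x p) := by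
  simp only [ev]
  rw [mul_comm p X]
  simp

theorem ev_sub_mul (S : E →L[ℂ] E) (x : E) (p : ℂ[X]) (l : ℂ) :
    ev S x ((X - C l) * p) = S (ev S x p) - l • ev S x p := by
  simp [ev, Algebra.algebraMap_eq_smul_one]

/-- the difference quotient -/
noncomputable def dq (p : ℂ[X]) (l : ℂ) : ℂ[X] := p /ₘ (X - C l)

theorem dq_spec (p : ℂ[X]) (l : ℂ) : p = C (p.eval l) + (X - C l) * dq p l := by
  have := modByMonic_add_div p (X - C l)
  rw [modByMonic_X_sub_C_eq_C_eval] at this
  exact this.symm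

theorem dq_unique {p q : ℂ[X]} {a l : ℂ} (h : p = C a + (X - C l) * q) : dq p l = q := by
  have := div_modByMonic_unique (f := p) (g := X - C l) q (C a) (monic_X_sub_C l)
    ⟨h.symm, ?_⟩
  · exact this.1
  · rw [degree_X_sub_C]
    exact lt_of_le_of_lt degree_C_le (by norm_num)

theorem dq_diff (S : E →L[ℂ] E) (x : E) (p : ℂ[X]) :
    Differentiable ℂ fun l => ev S x (dq p l) := by
  induction p using Polynomial.induction_on with
  | C a =>
    have : ∀ l, dq (C a) l = 0 := fun l => dq_unique (a := a) (by simp)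
    simp only [this]
    simp only [ev, map_zero]
    exact differentiable_const _
  | add p q hp hq =>
    have : ∀ l, dq (p + q) l = dq p l + dq q l := by
      intro l
      apply dq_unique (a := p.eval l + q.eval l)
      conv_lhs => rw [dq_spec p l, dq_spec q l]
      rw [C_add]; ring
    simp only [this, ev_add]
    exact hp.add hq
  | monomial n a h =>
    have h1 : ∀ l, dq (C a * X ^ (n + 1)) l = dq (C a * X ^ n) l * X + C ((C a * X ^ n).eval l) := by
      intro l
      apply dq_unique (a := (C a * X ^ n).eval l * l)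
      have := dq_spec (C a * X ^ n) l
      calc C a * X ^ (n + 1) = (C a * X ^ n) * X := by ring
        _ = (C ((C a * X ^ n).eval l) + (X - C l) * dq (C a * X ^ n) l) * X := by rw [← this]
        _ = _ := by rw [C_mul]; ring
    simp only [h1, ev_add, ev_mul_X, ev_C]
    refine (S.differentiable.comp h).add ?_
    have : Differentiable ℂ fun l : ℂ => (C a * X ^ n : ℂ[X]).eval l := Polynomial.differentiable _
    exact this.smul_const x

theorem exists_unif {S : E →L[ℂ] E} {x : E} {L : Set ℂ} (hL : IsCompact L) (hLG : L ⊆ GG S x) :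
    ∃ c : ℝ, 0 < c ∧ ∀ l ∈ L, Low S x c l := by
  refine hL.induction_on (p := fun s => ∃ c : ℝ, 0 < c ∧ ∀ l ∈ s, Low S x c l)
    ⟨1, one_pos, by simp⟩ ?_ ?_ ?_
  · rintro s t hst ⟨c, hc, h⟩
    exact ⟨c, hc, fun l hl => h l (hst hl)⟩
  · rintro s t ⟨c, hc, h⟩ ⟨d, hd, h'⟩
    refine ⟨min c d, lt_min hc hd, fun l hl a y => ?_⟩
    have hn : 0 ≤ ‖a‖ + ‖y‖ := by positivity
    rcases hl with hl | hl
    · exact (mul_le_mul_of_nonneg_right (min_le_left c d) hn).trans (h l hl a y)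
    · exact (mul_le_mul_of_nonneg_right (min_le_right c d) hn).trans (h' l hl a y)
  · intro l hl
    obtain ⟨c, hc, h⟩ := hLG hl
    refine ⟨Metric.closedBall l (c / 2), mem_nhdsWithin_of_mem_nhds
      (Metric.closedBall_mem_nhds l (by positivity)), c / 2, by positivity, fun m hm => h.near ?_⟩
    rwa [Metric.mem_closedBall, dist_eq_norm] at hm

/-- **Hull property.** -/
theorem hull {S : E →L[ℂ] E} {x : E} (hx : Dense (range (ev S x))) {O : Set ℂ} (hO : IsOpen O)
    (hb : Bornology.IsBounded O) (hf : frontier O ⊆ GG S x) : O ⊆ GG S x := by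
  intro l hl
  have hfc : IsCompact (frontier O) :=
    (hb.isCompact_closure).of_isClosed_subset isClosed_frontier frontier_subset_closure
  obtain ⟨c, hc, hu⟩ := exists_unif hfc hf
  -- bound on the frontier
  have hfr : ∀ p : ℂ[X], ∀ m ∈ frontier O, ‖(p.eval m, ev S x (dq p m))‖ ≤ ‖ev S x p‖ / c := by
    intro p m hm
    have h1 := hu m hm (p.eval m) (ev S x (dq p m))
    have h2 : (p.eval m) • x + (S (ev S x (dq p m)) - m • ev S x (dq p m)) = ev S x p := by
      conv_rhs => rw [dq_spec p m]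
      rw [ev_add, ev_C, ev_sub_mul]
    rw [h2] at h1
    rw [le_div_iff₀ hc, Prod.norm_def]
    have h3 : max ‖p.eval m‖ ‖ev S x (dq p m)‖ ≤ ‖p.eval m‖ + ‖ev S x (dq p m)‖ :=
      max_le (le_add_of_nonneg_right (norm_nonneg _)) (le_add_of_nonneg_left (norm_nonneg _))
    calc max ‖p.eval m‖ ‖ev S x (dq p m)‖ * c ≤ (‖p.eval m‖ + ‖ev S x (dq p m)‖) * c :=
          mul_le_mul_of_nonneg_right h3 hc.le
      _ = c * (‖p.eval m‖ + ‖ev S x (dq p m)‖) := mul_comm _ _
      _ ≤ _ := h1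
  -- bound inside
  have hin : ∀ p : ℂ[X], ‖(p.eval l, ev S x (dq p l))‖ ≤ ‖ev S x p‖ / c := by
    intro p
    have hd : DiffContOnCl ℂ (fun m => (p.eval m, ev S x (dq p m))) O :=
      (Differentiable.diffContOnCl ((Polynomial.differentiable p).prodMk (dq_diff S x p)))
    exact Complex.norm_le_of_forall_mem_frontier_norm_le hb hd (hfr p) (subset_closure hl)
  refine ⟨c / 2, by positivity, fun a y => ?_⟩
  -- polynomial vectors first
  have h1 : ∀ y ∈ range (ev S x), c / 2 * (‖a‖ + ‖y‖) ≤ ‖a • x + (S y - l • y)‖ := by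
    rintro _ ⟨q, rfl⟩
    set p : ℂ[X] := C a + (X - C l) * q with hp
    have h2 : dq p l = q := dq_unique (a := a) hp
    have h3 : p.eval l = a := by simp [hp]
    have h4 : ev S x p = a • x + (S (ev S x q) - l • ev S x q) := by
      rw [hp, ev_add, ev_C, ev_sub_mul]
    have h5 := hin p
    rw [h2, h3, h4, le_div_iff₀ hc, Prod.norm_def] at h5
    have h6 : ‖a‖ ≤ max ‖a‖ ‖ev S x q‖ := le_max_left _ _
    have h7 : ‖ev S x q‖ ≤ max ‖a‖ ‖ev S x q‖ := le_max_right _ _
    have h8 : max ‖a‖ ‖ev S x q‖ * c ≤ ‖a • x + (S (ev S x q) - l • ev S x q)‖ := h5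
    nlinarith
  have hcl : IsClosed {y : E | c / 2 * (‖a‖ + ‖y‖) ≤ ‖a • x + (S y - l • y)‖} := by
    apply isClosed_le
    · fun_prop
    · fun_prop
  exact (closure_minimal (s := range (ev S x)) h1 hcl) (hx y)

end Pool.Agent.Q202.EC
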