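import Pool.Agent.Helper523.LL.Pompeiu

set_option autoImplicit false
set_option linter.unusedSectionVars false

/-! # Splitting of the spectrum -/

namespace Pool.Agent.Q202.EC

open Set Filter Topology Complex MeasureTheory
open Pool.Agent.Helper523.LL (dbar pompeiu)

variable {A : Type*} [NormedRing A] [NormedAlgebra ℂ A] [CompleteSpace A]

/-- `φ` vanishes near the spectrum of `S` -/
def Off (S : A) (φ : ℂ → ℂ) : Prop := ∀ z ∈ spectrum ℂ S, ∀ᶠ w in 𝓝 z, φ w = 0

theorem res_left {x : A} {z : ℂ} (hz : z ∉ spectrum ℂ x) :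
    (algebraMap ℂ A z - x) * resolvent x z = 1 :=
  Ring.mul_inverse_cancel _ (spectrum.notMem_iff.1 hz)

theorem res_right {x : A} {z : ℂ} (hz : z ∉ spectrum ℂ x) :
    resolvent x z * (algebraMap ℂ A z - x) = 1 :=
  Ring.inverse_mul_cancel _ (spectrum.notMem_iff.1 hz)

theorem res_comm {x b : A} (hb : b * x = x * b) (z : ℂ) :
    b * resolvent x z = resolvent x z * b := by
  by_cases hz : z ∈ spectrum ℂ x
  · rw [spectrum.resolvent_zero_of_mem_spectrum hz]; simp
  · have h1 : b * (algebraMap ℂ A z - x) = (algebraMap ℂ A z - x) * b := by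
      rw [mul_sub, sub_mul, hb, Algebra.commutes]
    calc b * resolvent x z = (resolvent x z * (algebraMap ℂ A z - x)) * (b * resolvent x z) := by
          rw [res_right hz, one_mul]
      _ = resolvent x z * ((algebraMap ℂ A z - x) * b) * resolvent x z := by noncomm_ring
      _ = resolvent x z * (b * (algebraMap ℂ A z - x)) * resolvent x z := by rw [h1]
      _ = resolvent x z * b * ((algebraMap ℂ A z - x) * resolvent x z) := by noncomm_ring
      _ = resolvent x z * b := by rw [res_left hz, mul_one]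

theorem res_cont {x : A} {z : ℂ} (hz : z ∉ spectrum ℂ x) :
    ContinuousAt (fun z : ℂ => resolvent x z) z := by
  have : z ∈ resolventSet ℂ x := by
    by_contra h
    exact hz h
  exact (spectrum.hasDerivAt_resolvent_const_left this).continuousAt

theorem F_cont {x : A} {φ : ℂ → ℂ} (hφ : Continuous φ) (hoff : Off x φ) :
    Continuous fun z => φ z • resolvent x z := by
  rw [continuous_iff_continuousAt]
  intro z
  by_cases hz : z ∈ spectrum ℂ x
  · have : (fun z => φ z • resolvent x z) =ᶠ[𝓝 z] fun _ => 0 := by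
      filter_upwards [hoff z hz] with w hw
      simp [hw]
    exact continuousAt_const.congr this.symm
  · exact hφ.continuousAt.smul (res_cont hz)

theorem F_supp {x : A} {φ : ℂ → ℂ} (hs : HasCompactSupport φ) :
    HasCompactSupport fun z => φ z • resolvent x z := hs.smul_right

theorem F_int {x : A} {φ : ℂ → ℂ} (hφ : Continuous φ) (hs : HasCompactSupport φ)
    (hoff : Off x φ) : Integrable fun z => φ z • resolvent x z :=
  (F_cont hφ hoff).integrable_of_hasCompactSupport (F_supp hs)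

/-- the operator attached to the weight `φ` -/
noncomputable def PP (x : A) (φ : ℂ → ℂ) : A := ∫ z, φ z • resolvent x z

theorem PP_comm {x b : A} (hb : b * x = x * b) {φ : ℂ → ℂ} (hφ : Continuous φ)
    (hs : HasCompactSupport φ) (hoff : Off x φ) : b * PP x φ = PP x φ * b := by
  have hi := F_int hφ hs hoff
  rw [PP, ← integral_const_mul_of_integrable hi, ← integral_mul_const_of_integrable hi]
  congr 1
  funext z
  rw [mul_smul_comm, smul_mul_assoc, res_comm hb]

/-- multiplication of a weight vanishing near `w` by the Cauchy kernel of `w` -/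
theorem ker_cont {φ : ℂ → ℂ} (hφ : Continuous φ) {w : ℂ} (hw : ∀ᶠ z in 𝓝 w, φ z = 0) :
    Continuous fun z => φ z * (z - w)⁻¹ := by
  rw [continuous_iff_continuousAt]
  intro z
  by_cases hz : z = w
  · subst hz
    have : (fun ζ => φ ζ * (ζ - z)⁻¹) =ᶠ[𝓝 z] fun _ => 0 := by
      filter_upwards [hw] with ζ hζ
      simp [hζ]
    exact continuousAt_const.congr this.symm
  · exact hφ.continuousAt.mul ((continuousAt_id.sub continuousAt_const).inv₀ (sub_ne_zero.2 hz))

theorem ker_off {x : A} {φ : ℂ → ℂ} (hoff : Off x φ) (w : ℂ) : Off x fun z => φ z * (z - w)⁻¹ := by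
  intro z hz
  filter_upwards [hoff z hz] with ζ hζ
  simp [hζ]

theorem dbar_cont {ψ : ℂ → ℂ} (h : ContDiff ℝ 1 ψ) : Continuous (dbar ψ) := by
  have hD : Continuous (fderiv ℝ ψ) := h.continuous_fderiv (by simp)
  unfold dbar
  fun_prop

theorem dbar_supp {ψ : ℂ → ℂ} (hs : HasCompactSupport ψ) : HasCompactSupport (dbar ψ) := by
  have hD : HasCompactSupport (fderiv ℝ ψ) := hs.fderiv ℝ
  refine hD.mono ?_
  intro z hz
  rw [Function.mem_support] at hz ⊢
  intro h0
  apply hz
  simp [dbar, h0]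

theorem dbar_zero {ψ : ℂ → ℂ} {z c : ℂ} (h : ∀ᶠ w in 𝓝 z, ψ w = c) :
    ∀ᶠ w in 𝓝 z, dbar ψ w = 0 := by
  have h' := h.eventually_nhds
  filter_upwards [h'] with w hw
  have h1 : ψ =ᶠ[𝓝 w] fun _ => c := hw
  have h2 : fderiv ℝ ψ w = 0 := by
    rw [h1.fderiv_eq]
    simp
  simp [dbar, h2]

/-- `ψ` is locally constant near the spectrum -/
def LC (S : A) (ψ : ℂ → ℂ) : Prop := ∀ z ∈ spectrum ℂ S, ∃ c : ℂ, ∀ᶠ w in 𝓝 z, ψ w = c

theorem LC.off {x : A} {ψ : ℂ → ℂ} (h : LC x ψ) : Off x (dbar ψ) := by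
  intro z hz
  obtain ⟨c, hc⟩ := h z hz
  exact dbar_zero hc

/-- the resolvent computation -/
theorem mul_PP {x : A} {ψ : ℂ → ℂ} (h : ContDiff ℝ 1 ψ) (hs : HasCompactSupport ψ) (hl : LC x ψ)
    {w : ℂ} (hw : ∀ᶠ z in 𝓝 w, dbar ψ z = 0) :
    (algebraMap ℂ A w - x) * PP x (fun z => dbar ψ z * (z - w)⁻¹) =
      -PP x (dbar ψ) - algebraMap ℂ A ((Real.pi : ℂ) * ψ w) := by
  have hw0 : dbar ψ w = 0 := hw.self_of_nhds
  have hφ : Continuous fun z => dbar ψ z * (z - w)⁻¹ := ker_cont (dbar_cont h) hw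
  have hφs : HasCompactSupport fun z => dbar ψ z * (z - w)⁻¹ := (dbar_supp hs).mul_right
  have hφo : Off x fun z => dbar ψ z * (z - w)⁻¹ := ker_off hl.off w
  have hi := F_int hφ hφs hφo
  have hi1 : Integrable fun z => (dbar ψ z * (z - w)⁻¹) • (1 : A) :=
    (hφ.smul continuous_const).integrable_of_hasCompactSupport hφs.smul_right
  have hi2 := F_int (dbar_cont h) (dbar_supp hs) hl.off (x := x)
  have key : ∀ z, (algebraMap ℂ A w - x) * ((dbar ψ z * (z - w)⁻¹) • resolvent x z) =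
      (dbar ψ z * (z - w)⁻¹) • (1 : A) - dbar ψ z • resolvent x z := by
    intro z
    by_cases hz : dbar ψ z = 0
    · simp [hz]
    · have hzs : z ∉ spectrum ℂ x := by
        intro hz'
        exact hz ((hl.off z hz').self_of_nhds)
      have hzw : z ≠ w := by
        rintro rfl
        exact hz hw0
      have h1 : (algebraMap ℂ A w - x) * resolvent x z = 1 - (z - w) • resolvent x z := by
        have h2 := res_left hzs
        have h3 : algebraMap ℂ A w - x = (algebraMap ℂ A z - x) - algebraMap ℂ A (z - w) := by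
          rw [map_sub]; abel
        rw [h3, sub_mul, h2, ← Algebra.smul_def]
      rw [mul_smul_comm, h1, smul_sub, smul_smul, mul_assoc, inv_mul_cancel₀ (sub_ne_zero.2 hzw),
        mul_one]
  have h4 : ∫ z, (dbar ψ z * (z - w)⁻¹) • (1 : A) = algebraMap ℂ A (-(Real.pi : ℂ) * ψ w) := by
    rw [integral_smul_const, pompeiu h hs w, Algebra.algebraMap_eq_smul_one]
  rw [PP, ← integral_const_mul_of_integrable hi, integral_congr_ae (Eventually.of_forall key),
    integral_sub hi1 hi2, h4, PP, neg_mul, map_neg]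
  abel

theorem PP_ne_zero {x : A} {ψ : ℂ → ℂ} (h : ContDiff ℝ 1 ψ) (hs : HasCompactSupport ψ)
    (hl : LC x ψ) {w : ℂ} (hw : w ∈ spectrum ℂ x) (hw1 : ψ w = 1) : PP x (dbar ψ) ≠ 0 := by
  intro h0
  have hwo := hl.off w hw
  have h1 := mul_PP h hs hl hwo
  rw [h0, hw1, mul_one, neg_zero, zero_sub] at h1
  set Q := PP x (fun z => dbar ψ z * (z - w)⁻¹) with hQ
  have h2 : (algebraMap ℂ A w - x) * Q = Q * (algebraMap ℂ A w - x) := by
    apply PP_comm _ (ker_cont (dbar_cont h) hwo) (dbar_supp hs).mul_right (ker_off hl.off w)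
    rw [sub_mul, mul_sub, Algebra.commutes]
  have hpi : (Real.pi : ℂ) ≠ 0 := by exact_mod_cast Real.pi_ne_zero
  have h3 : (algebraMap ℂ A w - x) * (-((Real.pi : ℂ)⁻¹) • Q) = 1 := by
    rw [mul_smul_comm, h1, Algebra.algebraMap_eq_smul_one, ← neg_smul, smul_smul]
    rw [neg_mul_neg, inv_mul_cancel₀ hpi, one_smul]
  have h4 : (-((Real.pi : ℂ)⁻¹) • Q) * (algebraMap ℂ A w - x) = 1 := by
    rw [smul_mul_assoc, ← h2, ← mul_smul_comm, h3]
  exact hw (spectrum.mem_resolventSet_of_left_right_inverse h3 h4)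

theorem tsupport_zero {ψ : ℂ → ℂ} {z : ℂ} (hz : z ∉ tsupport ψ) : ∀ᶠ w in 𝓝 z, ψ w = 0 := by
  filter_upwards [(isClosed_tsupport ψ).isOpen_compl.mem_nhds hz] with w hw
  exact image_eq_zero_of_notMem_tsupport hw

theorem PP_mul {x : A} {ψ₁ ψ₂ : ℂ → ℂ} (h₁ : ContDiff ℝ 1 ψ₁) (hs₁ : HasCompactSupport ψ₁)
    (hl₁ : LC x ψ₁) (h₂ : ContDiff ℝ 1 ψ₂) (hs₂ : HasCompactSupport ψ₂) (hl₂ : LC x ψ₂)
    (hd : Disjoint (tsupport ψ₁) (tsupport ψ₂)) :
    PP x (dbar ψ₁) * PP x (dbar ψ₂) = 0 := by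
  have hd1 : ∀ z, dbar ψ₁ z ≠ 0 → z ∈ tsupport ψ₁ := by
    intro z hz
    by_contra h0
    exact hz (dbar_zero (tsupport_zero h0)).self_of_nhds
  have hd2 : ∀ z, dbar ψ₂ z ≠ 0 → z ∈ tsupport ψ₂ := by
    intro z hz
    by_contra h0
    exact hz (dbar_zero (tsupport_zero h0)).self_of_nhds
  -- first step
  have step1 : ∀ z, (dbar ψ₁ z • resolvent x z) * PP x (dbar ψ₂) =
      ∫ w, (-(dbar ψ₁ z * (dbar ψ₂ w * (w - z)⁻¹))) • resolvent x w := by
    intro z
    by_cases hz : dbar ψ₁ z = 0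
    · simp [hz]
    · have hz1 : z ∈ tsupport ψ₁ := hd1 z hz
      have hz2 : z ∉ tsupport ψ₂ := fun h' => (disjoint_left.1 hd) hz1 h'
      have hzs : z ∉ spectrum ℂ x := by
        intro hz'
        exact hz ((hl₁.off z hz').self_of_nhds)
      have hz3 : ∀ᶠ w in 𝓝 z, dbar ψ₂ w = 0 := dbar_zero (tsupport_zero hz2)
      have hz4 : ψ₂ z = 0 := image_eq_zero_of_notMem_tsupport hz2
      have h3 := mul_PP h₂ hs₂ hl₂ hz3
      rw [hz4, mul_zero, map_zero, sub_zero] at h3
      have h4 : resolvent x z * PP x (dbar ψ₂) =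
          -PP x (fun w => dbar ψ₂ w * (w - z)⁻¹) := by
        have h5 : PP x (dbar ψ₂) =
            -((algebraMap ℂ A z - x) * PP x (fun w => dbar ψ₂ w * (w - z)⁻¹)) := by
          rw [h3, neg_neg]
        rw [h5, mul_neg, ← mul_assoc, res_right hzs, one_mul]
      rw [smul_mul_assoc, h4, PP, ← integral_neg, ← integral_smul]
      congr 1
      funext w
      rw [smul_neg, smul_smul, neg_smul]
  have hi := F_int (dbar_cont h₁) (dbar_supp hs₁) hl₁.off (x := x)
  have e1 : PP x (dbar ψ₁) * PP x (dbar ψ₂) =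
      ∫ z, ∫ w, (-(dbar ψ₁ z * (dbar ψ₂ w * (w - z)⁻¹))) • resolvent x w := by
    rw [PP, ← integral_mul_const_of_integrable hi]
    congr 1
    funext z
    exact step1 z
  rw [e1, integral_integral_swap_of_hasCompactSupport]
  · -- inner integral vanishes
    have : ∀ w, ∫ z, (-(dbar ψ₁ z * (dbar ψ₂ w * (w - z)⁻¹))) • resolvent x w = 0 := by
      intro w
      by_cases hw : dbar ψ₂ w = 0
      · simp [hw]
      · have hw1 : w ∉ tsupport ψ₁ := fun h' => (disjoint_left.1 hd) h' (hd2 w hw)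
        have hw2 : ψ₁ w = 0 := image_eq_zero_of_notMem_tsupport hw1
        rw [integral_smul_const]
        have h5 : ∫ z, -(dbar ψ₁ z * (dbar ψ₂ w * (w - z)⁻¹)) =
            dbar ψ₂ w * ∫ z, dbar ψ₁ z * (z - w)⁻¹ := by
          rw [← integral_const_mul]
          congr 1
          funext z
          rw [← neg_sub z w, inv_neg]
          ring
        rw [h5, pompeiu h₁ hs₁ w, hw2]
        simp
    simp only [this, integral_zero]
  · -- continuity
    rw [continuous_iff_continuousAt]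
    rintro ⟨z, w⟩
    by_cases hw : w ∈ spectrum ℂ x
    · have h6 : ∀ᶠ p : ℂ × ℂ in 𝓝 (z, w), dbar ψ₂ p.2 = 0 :=
        (continuous_snd.tendsto (z, w)).eventually (hl₂.off w hw)
      have : (Function.uncurry fun z w => (-(dbar ψ₁ z * (dbar ψ₂ w * (w - z)⁻¹))) •
          resolvent x w) =ᶠ[𝓝 (z, w)] fun _ => 0 := by
        filter_upwards [h6] with p hp
        simp [Function.uncurry, hp]
      exact continuousAt_const.congr this.symm
    · by_cases hzw : z = w
      · subst hzw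
        by_cases hz1 : z ∈ tsupport ψ₁
        · have hz2 : z ∉ tsupport ψ₂ := fun h' => (disjoint_left.1 hd) hz1 h'
          have h6 : ∀ᶠ p : ℂ × ℂ in 𝓝 (z, z), dbar ψ₂ p.2 = 0 :=
            (continuous_snd.tendsto (z, z)).eventually (dbar_zero (tsupport_zero hz2))
          have : (Function.uncurry fun z w => (-(dbar ψ₁ z * (dbar ψ₂ w * (w - z)⁻¹))) •
              resolvent x w) =ᶠ[𝓝 (z, z)] fun _ => 0 := by
            filter_upwards [h6] with p hp
            simp [Function.uncurry, hp]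
          exact continuousAt_const.congr this.symm
        · have h6 : ∀ᶠ p : ℂ × ℂ in 𝓝 (z, z), dbar ψ₁ p.1 = 0 :=
            (continuous_fst.tendsto (z, z)).eventually (dbar_zero (tsupport_zero hz1))
          have : (Function.uncurry fun z w => (-(dbar ψ₁ z * (dbar ψ₂ w * (w - z)⁻¹))) •
              resolvent x w) =ᶠ[𝓝 (z, z)] fun _ => 0 := by
            filter_upwards [h6] with p hp
            simp [Function.uncurry, hp]
          exact continuousAt_const.congr this.symm
      · have c1 : ContinuousAt (fun p : ℂ × ℂ => dbar ψ₁ p.1) (z, w) :=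
          ((dbar_cont h₁).comp continuous_fst).continuousAt
        have c2 : ContinuousAt (fun p : ℂ × ℂ => dbar ψ₂ p.2) (z, w) :=
          ((dbar_cont h₂).comp continuous_snd).continuousAt
        have c3 : ContinuousAt (fun p : ℂ × ℂ => (p.2 - p.1)⁻¹) (z, w) :=
          (continuousAt_snd.sub continuousAt_fst).inv₀ (sub_ne_zero.2 (Ne.symm hzw))
        have c4 : ContinuousAt (fun p : ℂ × ℂ => resolvent x p.2) (z, w) :=
          ContinuousAt.comp (f := Prod.snd) (g := fun w => resolvent x w) (res_cont hw) continuousAt_snd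
        exact ((c1.mul (c2.mul c3)).neg).smul c4
  · -- support
    have : IsCompact (tsupport ψ₁ ×ˢ tsupport ψ₂) := hs₁.isCompact.prod hs₂.isCompact
    refine HasCompactSupport.intro this ?_
    rintro ⟨z, w⟩ hzw
    rw [mem_prod, not_and_or] at hzw
    rcases hzw with h' | h'
    · have : dbar ψ₁ z = 0 := by
        by_contra h0
        exact h' (hd1 z h0)
      simp [Function.uncurry, this]
    · have : dbar ψ₂ w = 0 := by
        by_contra h0
        exact h' (hd2 w h0)
      simp [Function.uncurry, this]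

open scoped Manifold ContDiff in
theorem exists_bump {K : Set ℂ} (hK : IsCompact K) {δ : ℝ} (hδ : 0 < δ) :
    ∃ ψ : ℂ → ℂ, ContDiff ℝ 1 ψ ∧ HasCompactSupport ψ ∧ tsupport ψ ⊆ Metric.cthickening δ K ∧
      ∀ z ∈ K, ∀ᶠ w in 𝓝 z, ψ w = 1 := by
  have hin : K ⊆ interior (Metric.cthickening δ K) :=
    (Metric.self_subset_thickening hδ K).trans
      (Metric.isOpen_thickening.subset_interior_iff.2 (Metric.thickening_subset_cthickening δ K))
  obtain ⟨f, hf1, hf0, -⟩ := exists_contMDiffMap_one_nhds_of_subset_interior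
    (I := 𝓘(ℝ, ℂ)) (n := 1) hK.isClosed hin
  have hfs : ContDiff ℝ 1 (fun z => f z) := by
    have := f.contMDiff
    exact contMDiff_iff_contDiff.1 this
  have ht : tsupport (fun z => ((f z : ℝ) : ℂ)) ⊆ Metric.cthickening δ K := by
    apply closure_minimal _ Metric.isClosed_cthickening
    intro z hz
    by_contra h0
    apply hz
    simp [hf0 z h0]
  refine ⟨fun z => ((f z : ℝ) : ℂ), ?_, ?_, ht, ?_⟩
  · exact Complex.ofRealCLM.contDiff.comp hfs
  · exact HasCompactSupport.of_support_subset_isCompact hK.cthickening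
      ((subset_tsupport _).trans ht)
  · intro z hz
    have := (mem_nhdsSet_iff_forall.1 hf1 z hz)
    filter_upwards [this] with w hw
    have hw' : f w = 1 := hw
    simp [hw']

/-- **Splitting of a disconnected spectrum.** -/
theorem split {x : A} {K₁ K₂ : Set ℂ} (hK₁ : IsClosed K₁) (hK₂ : IsClosed K₂)
    (hd : Disjoint K₁ K₂) (hc : spectrum ℂ x ⊆ K₁ ∪ K₂)
    (h1 : (spectrum ℂ x ∩ K₁).Nonempty) (h2 : (spectrum ℂ x ∩ K₂).Nonempty) :
    ∃ P Q : A, P ≠ 0 ∧ Q ≠ 0 ∧ P * Q = 0 ∧ (∀ b : A, b * x = x * b → b * P = P * b) ∧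
      ∀ b : A, b * x = x * b → b * Q = Q * b := by
  have c1 : IsCompact (spectrum ℂ x ∩ K₁) := (spectrum.isCompact x).inter_right hK₁
  have c2 : IsCompact (spectrum ℂ x ∩ K₂) := (spectrum.isCompact x).inter_right hK₂
  have hd' : Disjoint (spectrum ℂ x ∩ K₁) (spectrum ℂ x ∩ K₂) :=
    hd.mono inter_subset_right inter_subset_right
  obtain ⟨δ, hδ, hdd⟩ := hd'.exists_cthickenings c1 c2.isClosed
  obtain ⟨ψ₁, a1, b1, s1, e1⟩ := exists_bump c1 hδ
  obtain ⟨ψ₂, a2, b2, s2, e2⟩ := exists_bump c2 hδ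
  have l1 : LC x ψ₁ := by
    intro z hz
    rcases hc hz with h | h
    · exact ⟨1, e1 z ⟨hz, h⟩⟩
    · refine ⟨0, tsupport_zero fun h' => ?_⟩
      exact (disjoint_left.1 hdd) (s1 h') (Metric.self_subset_cthickening _ ⟨hz, h⟩)
  have l2 : LC x ψ₂ := by
    intro z hz
    rcases hc hz with h | h
    · refine ⟨0, tsupport_zero fun h' => ?_⟩
      exact (disjoint_left.1 hdd) (Metric.self_subset_cthickening _ ⟨hz, h⟩) (s2 h')
    · exact ⟨1, e2 z ⟨hz, h⟩⟩
  obtain ⟨w1, hw1⟩ := h1
  obtain ⟨w2, hw2⟩ := h2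
  exact ⟨PP x (dbar ψ₁), PP x (dbar ψ₂), PP_ne_zero a1 b1 l1 hw1.1 (e1 w1 hw1).self_of_nhds,
    PP_ne_zero a2 b2 l2 hw2.1 (e2 w2 hw2).self_of_nhds,
    PP_mul a1 b1 l1 a2 b2 l2 (hdd.mono s1 s2),
    fun b hb => PP_comm hb (dbar_cont a1) (dbar_supp b1) l1.off,
    fun b hb => PP_comm hb (dbar_cont a2) (dbar_supp b2) l2.off⟩

end Pool.Agent.Q202.EC
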