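import Pool.Agent.Q202.EC.Top
import Pool.Agent.Q202.EC.Split
import Pool.Agent.Q202.EC.Hull

set_option autoImplicit false
set_option linter.unusedSectionVars false
set_option linter.deprecated false

/-! # The approximate point spectrum of a cyclic operator whose spectrum cannot be split -/

namespace Pool.Agent.Q202.EC

open Set Filter Topology Complex Polynomial

variable {E : Type*} [NormedAddCommGroup E] [NormedSpace ℂ E] [CompleteSpace E]

theorem alg_apply (S : E →L[ℂ] E) (l : ℂ) (y : E) :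
    (algebraMap ℂ (E →L[ℂ] E) l - S) y = l • y - S y := by
  simp [Algebra.algebraMap_eq_smul_one]

theorem below_antilip {S : E →L[ℂ] E} {l : ℂ} {c : ℝ} (hc : 0 < c)
    (h : ∀ y : E, c * ‖y‖ ≤ ‖S y - l • y‖) :
    AntilipschitzWith (Real.toNNReal c⁻¹) (S - l • (1 : E →L[ℂ] E)) := by
  refine AddMonoidHomClass.antilipschitz_of_bound _ fun y => ?_
  have := h y
  rw [Real.coe_toNNReal _ (by positivity), inv_mul_eq_div, le_div_iff₀ hc, mul_comm]
  simpa using this

theorem mem_GG_of {S : E →L[ℂ] E} {x : E} {l : ℂ} (hl : l ∉ KK S)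
    (hx : x ∉ range (S - l • (1 : E →L[ℂ] E))) : l ∈ GG S x := by
  simp only [KK, mem_setOf_eq, not_not] at hl
  obtain ⟨c, hc, h⟩ := hl
  have hcl : IsClosed (range (S - l • (1 : E →L[ℂ] E))) :=
    (below_antilip hc h).isClosed_range (S - l • (1 : E →L[ℂ] E)).uniformContinuous
  have hne : (range (S - l • (1 : E →L[ℂ] E))).Nonempty := ⟨_, mem_range_self 0⟩
  set d := Metric.infDist x (range (S - l • (1 : E →L[ℂ] E))) with hd
  have hd0 : 0 < d := (hcl.notMem_iff_infDist_pos hne).1 hx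
  have h1 : ∀ (a : ℂ) (y : E), ‖a‖ * d ≤ ‖a • x + (S y - l • y)‖ := by
    intro a y
    by_cases ha : a = 0
    · simp [ha]
    · have h2 : d ≤ dist x ((S - l • (1 : E →L[ℂ] E)) (-(a⁻¹ • y))) :=
        Metric.infDist_le_dist_of_mem (mem_range_self _)
      have hy : y = a • (a⁻¹ • y) := by rw [smul_smul, mul_inv_cancel₀ ha, one_smul]
      have h3 : a • x + (S y - l • y) = a • (x - (S - l • (1 : E →L[ℂ] E)) (-(a⁻¹ • y))) := by
        conv_lhs => rw [hy]
        generalize a⁻¹ • y = w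
        have : (S - l • (1 : E →L[ℂ] E)) (-w) = -(S w) + l • w := by
          simp [sub_eq_add_neg]
        rw [this, map_smul]
        module
      rw [h3, norm_smul, ← dist_eq_norm]
      exact mul_le_mul_of_nonneg_left h2 (norm_nonneg _)
  set k := 1 / d + (1 + ‖x‖ / d) / c with hk
  have hk0 : 0 < k := by positivity
  refine ⟨k⁻¹, by positivity, fun a y => ?_⟩
  rw [inv_mul_le_iff₀ hk0]
  set N := ‖a • x + (S y - l • y)‖ with hN
  have h4 : ‖a‖ ≤ N / d := by
    rw [le_div_iff₀ hd0]; exact h1 a y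
  have h5 : c * ‖y‖ ≤ N + ‖a‖ * ‖x‖ := by
    have h6 : S y - l • y = (a • x + (S y - l • y)) - a • x := by abel
    calc c * ‖y‖ ≤ ‖S y - l • y‖ := h y
      _ = ‖(a • x + (S y - l • y)) - a • x‖ := by rw [← h6]
      _ ≤ ‖(a • x + (S y - l • y))‖ + ‖a • x‖ := norm_sub_le _ _
      _ = N + ‖a‖ * ‖x‖ := by rw [norm_smul]
  have h7 : ‖y‖ ≤ (N + N / d * ‖x‖) / c := by
    rw [le_div_iff₀ hc]
    have : ‖a‖ * ‖x‖ ≤ N / d * ‖x‖ := mul_le_mul_of_nonneg_right h4 (norm_nonneg _)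
    linarith
  calc ‖a‖ + ‖y‖ ≤ N / d + (N + N / d * ‖x‖) / c := add_le_add h4 h7
    _ = k * N := by rw [hk]; ring

theorem GG_not_surj {S : E →L[ℂ] E} {x : E} {l : ℂ} (hl : l ∈ GG S x) :
    l ∈ spectrum ℂ S := by
  obtain ⟨c, hc, h⟩ := hl
  intro hu
  have hu' : IsUnit (algebraMap ℂ (E →L[ℂ] E) l - S) := hu
  obtain ⟨u, hu⟩ := hu'
  have h1 := h 1 ((↑u⁻¹ : E →L[ℂ] E) x)
  have h2 : (algebraMap ℂ (E →L[ℂ] E) l - S) ((↑u⁻¹ : E →L[ℂ] E) x) = x := by
    rw [← hu, ← ContinuousLinearMap.mul_apply, Units.mul_inv, ContinuousLinearMap.one_apply]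
  rw [alg_apply] at h2
  have h3 : (1 : ℂ) • x + (S ((↑u⁻¹ : E →L[ℂ] E) x) - l • ((↑u⁻¹ : E →L[ℂ] E) x)) = 0 := by
    rw [one_smul]
    nth_rewrite 1 [← h2]
    abel
  rw [h3, norm_zero, norm_one] at h1
  have : 0 < c * (1 + ‖(↑u⁻¹ : E →L[ℂ] E) x‖) := by positivity
  linarith

theorem KK_subset {S : E →L[ℂ] E} : KK S ⊆ spectrum ℂ S := by
  intro l hl hu
  apply hl
  have hu' : IsUnit (algebraMap ℂ (E →L[ℂ] E) l - S) := hu
  obtain ⟨u, hu⟩ := hu'
  refine ⟨(‖(↑u⁻¹ : E →L[ℂ] E)‖ + 1)⁻¹, by positivity, fun y => ?_⟩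
  rw [inv_mul_le_iff₀ (by positivity)]
  have h1 : (↑u⁻¹ : E →L[ℂ] E) ((algebraMap ℂ (E →L[ℂ] E) l - S) y) = y := by
    rw [← hu, ← ContinuousLinearMap.mul_apply, Units.inv_mul, ContinuousLinearMap.one_apply]
  rw [alg_apply] at h1
  calc ‖y‖ = ‖(↑u⁻¹ : E →L[ℂ] E) (l • y - S y)‖ := by rw [h1]
    _ ≤ ‖(↑u⁻¹ : E →L[ℂ] E)‖ * ‖l • y - S y‖ := ContinuousLinearMap.le_opNorm _ _
    _ ≤ (‖(↑u⁻¹ : E →L[ℂ] E)‖ + 1) * ‖l • y - S y‖ := by
        apply mul_le_mul_of_nonneg_right _ (norm_nonneg _)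
        linarith
    _ = _ := by rw [norm_sub_rev]

theorem ev_mem {S : E →L[ℂ] E} {x : E} {l : ℂ} {N : Submodule ℂ E}
    (hx : x ∈ N) (hN : ∀ y, S y - l • y ∈ N) (p : ℂ[X]) : ev S x p ∈ N := by
  rw [dq_spec p l, ev_add, ev_C, ev_sub_mul]
  exact N.add_mem (N.smul_mem _ hx) (hN _)

theorem spectrum_eq {S : E →L[ℂ] E} {x : E} (hx : Dense (range (ev S x))) :
    spectrum ℂ S = KK S ∪ GG S x := by
  apply Subset.antisymm
  · intro l hl
    by_contra hcon
    rw [mem_union, not_or] at hcon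
    obtain ⟨hK, hG⟩ := hcon
    have hxr : x ∈ range (S - l • (1 : E →L[ℂ] E)) := by
      by_contra h0
      exact hG (mem_GG_of hK h0)
    have hK' := hK
    simp only [KK, mem_setOf_eq, not_not] at hK'
    obtain ⟨c, hc, h⟩ := hK'
    have hanti := below_antilip hc h
    have hcl : IsClosed (range (S - l • (1 : E →L[ℂ] E))) :=
      hanti.isClosed_range (S - l • (1 : E →L[ℂ] E)).uniformContinuous
    have hsurj : ∀ y, y ∈ range (S - l • (1 : E →L[ℂ] E)) := by
      intro y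
      refine closure_minimal ?_ hcl (hx y)
      rintro _ ⟨p, rfl⟩
      have := ev_mem (S := S) (x := x) (l := l)
        (N := LinearMap.range ((S - l • (1 : E →L[ℂ] E) : E →L[ℂ] E) : E →ₗ[ℂ] E))
        (by simpa using hxr) (fun y => ⟨y, by simp⟩) p
      simpa using this
    have hbij : Function.Bijective (S - l • (1 : E →L[ℂ] E)) := ⟨hanti.injective, fun y => hsurj y⟩
    have hunit : IsUnit (S - l • (1 : E →L[ℂ] E)) :=
      ContinuousLinearMap.isUnit_iff_bijective.2 hbij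
    apply hl
    change IsUnit (algebraMap ℂ (E →L[ℂ] E) l - S)
    rw [Algebra.algebraMap_eq_smul_one, ← neg_sub, IsUnit.neg_iff]
    exact hunit
  · exact union_subset KK_subset fun l hl => GG_not_surj hl

/-- no splitting -/
def NoSplit (S : E →L[ℂ] E) : Prop :=
  ∀ P Q : E →L[ℂ] E, P ≠ 0 → Q ≠ 0 → P * Q = 0 → P * S = S * P → Q * S = S * Q → False

theorem KK_compact {S : E →L[ℂ] E} : IsCompact (KK S) :=
  (spectrum.isCompact S).of_isClosed_subset
    (isOpen_compl_iff.1 (isOpen_compl_KK S)) KK_subset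

theorem GG_bounded {S : E →L[ℂ] E} {x : E} : Bornology.IsBounded (GG S x) :=
  (spectrum.isBounded S).subset fun _ hl => GG_not_surj hl

theorem frontier_GG {S : E →L[ℂ] E} {x : E} (hx : Dense (range (ev S x))) :
    frontier (GG S x) ⊆ KK S := by
  intro l hl
  rw [(isOpen_GG S x).frontier_eq] at hl
  by_contra hK
  have h1 : l ∉ spectrum ℂ S := by
    rw [spectrum_eq hx]
    exact fun h => h.elim hK hl.2
  have h2 : (spectrum ℂ S)ᶜ ∈ 𝓝 l := (spectrum.isClosed S).isOpen_compl.mem_nhds h1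
  obtain ⟨m, hm1, hm2⟩ := mem_closure_iff_nhds.1 hl.1 _ h2
  exact hm1 (GG_not_surj hm2)

theorem KK_preconnected {S : E →L[ℂ] E} {x : E} (hx : Dense (range (ev S x)))
    (hS : NoSplit S) : IsPreconnected (KK S) := by
  rw [isPreconnected_closed_iff]
  intro t t' ht ht' hcov h1 h2
  by_contra hne
  rw [Set.not_nonempty_iff_eq_empty] at hne
  have c1 : IsCompact (KK S ∩ t) := KK_compact.inter_right ht
  have c2 : IsCompact (KK S ∩ t') := KK_compact.inter_right ht'
  have hd : Disjoint (KK S ∩ t) (KK S ∩ t') := by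
    rw [Set.disjoint_iff_inter_eq_empty, ← hne]
    ext z; simp only [mem_inter_iff]; tauto
  obtain ⟨δ, hδ, hdd⟩ := hd.exists_cthickenings c1 c2.isClosed
  obtain ⟨f, hf0, hf1, -⟩ := exists_continuous_zero_one_of_isClosed
    (Metric.isClosed_cthickening (δ := δ) (E := KK S ∩ t))
    (Metric.isClosed_cthickening (δ := δ) (E := KK S ∩ t')) hdd
  have hint : ∀ z ∈ KK S, ∀ᶠ w in 𝓝 z, ∃ n : ℤ, f w = n := by
    intro z hz
    rcases hcov hz with h | h
    · have : Metric.thickening δ (KK S ∩ t) ∈ 𝓝 z :=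
        Metric.isOpen_thickening.mem_nhds (Metric.self_subset_thickening hδ _ ⟨hz, h⟩)
      filter_upwards [this] with w hw
      exact ⟨0, by simpa using hf0 (Metric.thickening_subset_cthickening _ _ hw)⟩
    · have : Metric.thickening δ (KK S ∩ t') ∈ 𝓝 z :=
        Metric.isOpen_thickening.mem_nhds (Metric.self_subset_thickening hδ _ ⟨hz, h⟩)
      filter_upwards [this] with w hw
      exact ⟨1, by simpa using hf1 (Metric.thickening_subset_cthickening _ _ hw)⟩
  obtain ⟨m, hmc, hm1, hm2⟩ := exists_int (isOpen_GG S x) GG_bounded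
    (fun O hO hb hf => hull hx hO hb hf) f.continuous
    (fun z hz => hint z (frontier_GG hx hz))
  have hmint : ∀ z ∈ spectrum ℂ S, ∃ n : ℤ, m z = n := by
    intro z hz
    rw [spectrum_eq hx] at hz
    rcases hz with h | h
    · have hzG : z ∉ GG S x := fun h' => GG_subset h' h
      rw [hm1 z hzG]
      exact (hint z h).self_of_nhds
    · exact hm2 z h
  obtain ⟨z1, hz1⟩ := h1
  obtain ⟨z2, hz2⟩ := h2
  have e1 : m z1 = 0 := by
    rw [hm1 z1 fun h' => GG_subset h' hz1.1]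
    simpa using hf0 (Metric.self_subset_cthickening _ hz1)
  have e2 : m z2 = 1 := by
    rw [hm1 z2 fun h' => GG_subset h' hz2.1]
    simpa using hf1 (Metric.self_subset_cthickening _ hz2)
  obtain ⟨P, Q, hP, hQ, hPQ, hPc, hQc⟩ := split (x := S)
    (K₁ := spectrum ℂ S ∩ {z | m z ≤ 1 / 2}) (K₂ := spectrum ℂ S ∩ {z | 1 / 2 ≤ m z})
    ((spectrum.isClosed S).inter (isClosed_le hmc continuous_const))
    ((spectrum.isClosed S).inter (isClosed_le continuous_const hmc))
    (by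
      rw [Set.disjoint_left]
      rintro z ⟨hz, h3⟩ ⟨-, h4⟩
      obtain ⟨n, hn⟩ := hmint z hz
      have h5 : m z = 1 / 2 := le_antisymm h3 h4
      rw [hn] at h5
      have : (2 * n : ℤ) = 1 := by
        have : (2 * n : ℝ) = 1 := by linarith
        exact_mod_cast this
      omega)
    (by
      intro z hz
      rcases le_total (m z) (1 / 2) with h | h
      · exact Or.inl ⟨hz, h⟩
      · exact Or.inr ⟨hz, h⟩)
    ⟨z1, KK_subset hz1.1, KK_subset hz1.1, by rw [mem_setOf_eq, e1]; norm_num⟩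
    ⟨z2, KK_subset hz2.1, KK_subset hz2.1, by rw [mem_setOf_eq, e2]; norm_num⟩
  exact hS P Q hP hQ hPQ (hPc S rfl).symm (hQc S rfl).symm

theorem KK_nonempty [Nontrivial E] {S : E →L[ℂ] E} {x : E} (hx : Dense (range (ev S x))) :
    (KK S).Nonempty := by
  by_contra h0
  rw [Set.not_nonempty_iff_eq_empty] at h0
  have h1 : frontier (GG S x) = ∅ := by
    rw [← subset_empty_iff, ← h0]
    exact frontier_GG hx
  have h2 : IsClopen (GG S x) := isClopen_iff_frontier_eq_empty.2 h1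
  rcases isClopen_iff.1 h2 with h3 | h3
  · have := spectrum.nonempty S
    rw [spectrum_eq hx, h0, h3, union_empty] at this
    exact this.ne_empty rfl
  · have := GG_bounded (S := S) (x := x)
    rw [h3] at this
    exact NormedSpace.unbounded_univ ℂ ℂ this

end Pool.Agent.Q202.EC
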