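import Mathlib

set_option autoImplicit false

/-! # Topological part: integer valued corrections on a set with the hull property -/

namespace Pool.Agent.Q202.EC

open Set Filter Topology Complex

/-- the complement of a closed disc is connected -/
theorem isPreconnected_outside {R : ℝ} (hR : 0 < R) : IsPreconnected {z : ℂ | R < ‖z‖} := by
  have h : {z : ℂ | R < ‖z‖} = Complex.exp '' {w : ℂ | Real.log R < w.re} := by
    ext z
    constructor
    · intro hz
      have hz' : R < ‖z‖ := hz
      have hz0 : z ≠ 0 := by
        intro h0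
        rw [h0, norm_zero] at hz'
        linarith
      refine ⟨Complex.log z, ?_, Complex.exp_log hz0⟩
      rw [mem_setOf_eq, Complex.log_re]
      exact Real.log_lt_log hR hz'
    · rintro ⟨w, hw, rfl⟩
      rw [mem_setOf_eq, Complex.norm_exp]
      calc R = Real.exp (Real.log R) := (Real.exp_log hR).symm
        _ < Real.exp w.re := Real.exp_lt_exp.2 hw
  rw [h]
  refine IsPreconnected.image ?_ _ Complex.continuous_exp.continuousOn
  have : {w : ℂ | Real.log R < w.re} = Complex.reLm ⁻¹' (Ioi (Real.log R)) := by
    ext; simp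
  rw [this]
  exact ((convex_Ioi _).linear_preimage _).isPreconnected

/-- a continuous real function taking integer values on a preconnected set is constant there -/
theorem const_of_int {X : Type*} [TopologicalSpace X] {s : Set X} (hs : IsPreconnected s)
    {g : X → ℝ} (hg : ContinuousOn g s) (hi : ∀ x ∈ s, ∃ n : ℤ, g x = n) {x y : X}
    (hx : x ∈ s) (hy : y ∈ s) : g x = g y := by
  have h1 : IsPreconnected (g '' s) := hs.image _ hg
  by_contra hne
  have h2 : ∃ c : ℝ, c ∈ g '' s ∧ ∀ n : ℤ, c ≠ n := by
    rcases lt_or_gt_of_ne hne with h | h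
    · obtain ⟨n, hn⟩ := hi x hx
      obtain ⟨m, hm⟩ := hi y hy
      have hnm : n < m := by
        have : (n : ℝ) < m := by rw [← hn, ← hm]; exact h
        exact_mod_cast this
      have hnm' : (n : ℝ) + 1 ≤ m := by exact_mod_cast hnm
      refine ⟨n + 1 / 2, h1.ordConnected.out (mem_image_of_mem g hx) (mem_image_of_mem g hy)
        ⟨by rw [hn]; linarith, by rw [hm]; linarith⟩, ?_⟩
      intro k hk
      have h3 : (2 * n + 1 : ℤ) = 2 * k := by
        have : (2 * n + 1 : ℝ) = 2 * k := by linarith
        exact_mod_cast this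
      omega
    · obtain ⟨n, hn⟩ := hi y hy
      obtain ⟨m, hm⟩ := hi x hx
      have hnm : n < m := by
        have : (n : ℝ) < m := by rw [← hn, ← hm]; exact h
        exact_mod_cast this
      have hnm' : (n : ℝ) + 1 ≤ m := by exact_mod_cast hnm
      refine ⟨n + 1 / 2, h1.ordConnected.out (mem_image_of_mem g hy) (mem_image_of_mem g hx)
        ⟨by rw [hn]; linarith, by rw [hm]; linarith⟩, ?_⟩
      intro k hk
      have h3 : (2 * n + 1 : ℤ) = 2 * k := by
        have : (2 * n + 1 : ℝ) = 2 * k := by linarith
        exact_mod_cast this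
      omega
  obtain ⟨c, ⟨z, hz, rfl⟩, hc⟩ := h2
  obtain ⟨n, hn⟩ := hi z hz
  exact hc n hn

theorem coe_eq_zero_iff {r : ℝ} : (r : AddCircle (1 : ℝ)) = 0 ↔ ∃ n : ℤ, r = n := by
  rw [AddCircle.coe_eq_zero_iff]
  constructor
  · rintro ⟨n, hn⟩
    exact ⟨n, by rw [← hn]; simp⟩
  · rintro ⟨n, hn⟩
    exact ⟨n, by rw [hn]; simp⟩

/-- **Key topological lemma.** Let `G` be a bounded open set with the hull property, `f` a real
continuous function on the plane which is locally constant with integer values near every point
of the frontier of `G`. Then `f` can be changed inside `G` to a continuous function which takes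
integer values on `G`. -/
theorem exists_int {G : Set ℂ} (hG : IsOpen G) (hb : Bornology.IsBounded G)
    (hull : ∀ O : Set ℂ, IsOpen O → Bornology.IsBounded O → frontier O ⊆ G → O ⊆ G)
    {f : ℂ → ℝ} (hf : Continuous f)
    (hfr : ∀ z ∈ frontier G, ∀ᶠ w in 𝓝 z, ∃ n : ℤ, f w = n) :
    ∃ m : ℂ → ℝ, Continuous m ∧ (∀ z, z ∉ G → m z = f z) ∧ ∀ z ∈ G, ∃ n : ℤ, m z = n := by
  classical
  set h : ℂ → AddCircle (1 : ℝ) := fun z => if z ∈ G then (f z : AddCircle (1 : ℝ)) else 0 with hh
  have hc : Continuous h := by
    rw [continuous_iff_continuousAt]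
    intro z
    by_cases hz : z ∈ G
    · have : h =ᶠ[𝓝 z] fun w => (f w : AddCircle (1 : ℝ)) := by
        filter_upwards [hG.mem_nhds hz] with w hw
        simp [hh, hw]
      exact ((AddCircle.continuous_mk' (1 : ℝ)).comp hf).continuousAt.congr this.symm
    · by_cases hz' : z ∈ closure G
      · have hzf : z ∈ frontier G := by
          rw [hG.frontier_eq]; exact ⟨hz', hz⟩
        have : h =ᶠ[𝓝 z] fun _ => 0 := by
          filter_upwards [hfr z hzf] with w hw
          by_cases hw' : w ∈ G
          · simp only [hh, hw', if_true]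
            exact coe_eq_zero_iff.2 hw
          · simp [hh, hw']
        exact continuousAt_const.congr this.symm
      · have : h =ᶠ[𝓝 z] fun _ => 0 := by
          filter_upwards [isClosed_closure.isOpen_compl.mem_nhds hz'] with w hw
          have : w ∉ G := fun h' => hw (subset_closure h')
          simp [hh, this]
        exact continuousAt_const.congr this.symm
  obtain ⟨R, hR, hRG⟩ := hb.exists_pos_norm_lt
  set a₀ : ℂ := ((R + 1 : ℝ) : ℂ) with ha₀
  have ha : a₀ ∉ G := by
    intro h'
    have := hRG _ h'
    rw [ha₀, Complex.norm_real, Real.norm_eq_abs, abs_of_pos (by linarith)] at this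
    linarith
  have haR : R < ‖a₀‖ := by
    rw [ha₀, Complex.norm_real, Real.norm_eq_abs, abs_of_pos (by linarith)]
    linarith
  obtain ⟨g, ⟨hg0, hgl⟩, -⟩ := (AddCircle.isCoveringMap_coe (1 : ℝ)).existsUnique_continuousMap_lifts
    (A := ℂ) ⟨h, hc⟩ a₀ (0 : ℝ) (by simp [hh, ha])
  have hgl' : ∀ z, ((g z : ℝ) : AddCircle (1 : ℝ)) = h z := fun z => congrFun hgl z
  -- integer valued off `G`
  have hint : ∀ z, z ∉ G → ∃ n : ℤ, g z = n := by
    intro z hz
    apply coe_eq_zero_iff.1
    rw [hgl' z]
    simp [hh, hz]
  have hfar : ∀ z : ℂ, R < ‖z‖ → g z = 0 := by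
    intro z hz
    rw [← hg0]
    refine const_of_int (isPreconnected_outside hR) g.continuous.continuousOn ?_ hz haR
    intro w hw
    apply hint
    intro hwG
    exact absurd (hRG w hwG) (not_lt.2 (le_of_lt hw))
  -- zero off `G`
  have hzero : ∀ z, z ∉ G → g z = 0 := by
    intro z hz
    by_contra hne
    obtain ⟨n, hn⟩ := hint z hz
    -- O : the points where `g` is near nonzero integers
    set O : Set ℂ := {w | 1 / 2 < |g w|} with hO
    have hOo : IsOpen O := isOpen_lt continuous_const (g.continuous.abs)
    have hOb : Bornology.IsBounded O := by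
      refine (Metric.isBounded_closedBall (x := (0 : ℂ)) (r := R)).subset ?_
      intro w hw
      rw [mem_closedBall_zero_iff]
      by_contra hcon
      push Not at hcon
      have := hfar w hcon
      rw [hO, mem_setOf_eq, this] at hw
      norm_num at hw
    have hOf : frontier O ⊆ G := by
      intro w hw
      by_contra hwG
      have h1 : |g w| = 1 / 2 := by
        have h2 : frontier O ⊆ {w | (1 / 2 : ℝ) = |g w|} :=
          frontier_lt_subset_eq continuous_const (g.continuous.abs)
        exact (h2 hw).symm
      obtain ⟨k, hk⟩ := hint w hwG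
      rw [hk] at h1
      rw [← Int.cast_abs] at h1
      have : (2 * |k| : ℤ) = 1 := by
        have : (2 * (|k| : ℤ) : ℝ) = 1 := by linarith
        exact_mod_cast this
      omega
    have hzO : z ∈ O := by
      rw [hO, mem_setOf_eq, hn, ← Int.cast_abs]
      have hk : n ≠ 0 := by
        rintro rfl
        exact hne (by simpa using hn)
      have : (1 : ℝ) ≤ (|n| : ℤ) := by exact_mod_cast Int.one_le_abs hk
      linarith
    exact hz (hull O hOo hOb hOf hzO)
  refine ⟨fun z => f z - g z, hf.sub g.continuous, ?_, ?_⟩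
  · intro z hz
    simp [hzero z hz]
  · intro z hz
    apply coe_eq_zero_iff.1
    have h1 := hgl' z
    simp only [hh, hz, if_true] at h1
    have h2 : ((f z - g z : ℝ) : AddCircle (1 : ℝ)) = (f z : AddCircle (1 : ℝ)) - (g z : AddCircle (1 : ℝ)) :=
      AddCircle.coe_sub _ _ _
    rw [h2, h1, sub_self]

end Pool.Agent.Q202.EC
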